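import Pool.Agent.H51.LZ.Pot

/-!
# The torus `(ℂ / ℤ[i])^2` with the unipotent automorphism `(x, y) ↦ (x, y + x)`
-/

set_option autoImplicit false

open Set Filter Topology Metric MeasureTheory
open scoped Manifold ContDiff

namespace Pool.Agent.H84.LZ

open Pool.Agent.H51.LZ

/-- vectors of Gaussian integers -/
def Lam : AddSubgroup (Cn 2) where
  carrier := {v | ∀ i, (∃ k : ℤ, (v i).re = k) ∧ ∃ k : ℤ, (v i).im = k}
  zero_mem' := fun i => ⟨⟨0, by simp⟩, ⟨0, by simp⟩⟩
  add_mem' := by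
    intro a b ha hb i
    obtain ⟨⟨k, hk⟩, l, hl⟩ := ha i
    obtain ⟨⟨k', hk'⟩, l', hl'⟩ := hb i
    exact ⟨⟨k + k', by simp [hk, hk']⟩, ⟨l + l', by simp [hl, hl']⟩⟩
  neg_mem' := by
    intro a ha i
    obtain ⟨⟨k, hk⟩, l, hl⟩ := ha i
    exact ⟨⟨-k, by simp [hk]⟩, ⟨-l, by simp [hl]⟩⟩

theorem int_small {k : ℤ} {x : ℝ} (h : x = k) (hx : |x| < 1) : x = 0 := by
  rw [h] at hx ⊢
  have : |k| < 1 := by exact_mod_cast hx
  rw [Int.abs_lt_one_iff] at this
  simp [this]

theorem Lam.eq_zero {v : Cn 2} (hv : v ∈ Lam) (h : ∀ i, |(v i).re| < 1 ∧ |(v i).im| < 1) :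
    v = 0 := by
  ext i
  obtain ⟨⟨k, hk⟩, l, hl⟩ := hv i
  exact Complex.ext (int_small hk (h i).1) (int_small hl (h i).2)

instance isClosed_Lam : IsClosed (Lam : Set (Cn 2)) := by
  have h1 : (Lam : Set (Cn 2)) = ⋂ i : Fin 2, ({v : Cn 2 | (v i).re ∈ range ((↑) : ℤ → ℝ)} ∩
      {v : Cn 2 | (v i).im ∈ range ((↑) : ℤ → ℝ)}) := by
    ext v
    simp only [mem_iInter, mem_inter_iff, mem_setOf_eq, mem_range]
    exact forall_congr' fun i => and_congr
      (exists_congr fun k => eq_comm) (exists_congr fun k => eq_comm)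
  rw [h1]
  have h2 : IsClosed (range ((↑) : ℤ → ℝ)) := Int.isClosedEmbedding_coe_real.isClosed_range
  exact isClosed_iInter fun i => (h2.preimage (by fun_prop)).inter (h2.preimage (by fun_prop))

/-- the torus -/
abbrev Tor : Type := Cn 2 ⧸ Lam

/-- the projection -/
abbrev pr (z : Cn 2) : Tor := (z : Cn 2 ⧸ Lam)

theorem pr_eq {z w : Cn 2} : pr z = pr w ↔ w - z ∈ Lam := by
  rw [pr, pr, QuotientAddGroup.eq, neg_add_eq_sub]

theorem continuous_pr : Continuous pr := continuous_quot_mk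

theorem isOpenMap_pr : IsOpenMap pr := QuotientAddGroup.isOpenMap_coe

theorem surjective_pr : Function.Surjective pr := QuotientAddGroup.mk_surjective

/-- boxes -/
def box (c : Cn 2) (r : ℝ) : Set (Cn 2) := {z | ∀ i, |(z i - c i).re| < r ∧ |(z i - c i).im| < r}

theorem isOpen_box (c : Cn 2) (r : ℝ) : IsOpen (box c r) := by
  have h1 : box c r = ⋂ i : Fin 2, ({z : Cn 2 | |(z i - c i).re| < r} ∩
      {z : Cn 2 | |(z i - c i).im| < r}) := by
    ext v
    simp only [box, mem_iInter, mem_inter_iff, mem_setOf_eq]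
  rw [h1]
  exact isOpen_iInter_of_finite fun i => (isOpen_lt (by fun_prop) (by fun_prop)).inter
    (isOpen_lt (by fun_prop) (by fun_prop))

theorem mem_box_self (c : Cn 2) {r : ℝ} (hr : 0 < r) : c ∈ box c r := by
  intro i
  simp [hr]

theorem box_mono (c : Cn 2) {r s : ℝ} (h : r ≤ s) : box c r ⊆ box c s :=
  fun _ hz i => ⟨(hz i).1.trans_le h, (hz i).2.trans_le h⟩

theorem injOn_pr (c : Cn 2) : InjOn pr (box c (1 / 2)) := by
  intro z hz w hw h
  have h1 : w - z = 0 := by
    refine Lam.eq_zero (pr_eq.1 h) fun i => ?_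
    have hz1 := abs_lt.1 (hz i).1
    have hz2 := abs_lt.1 (hz i).2
    have hw1 := abs_lt.1 (hw i).1
    have hw2 := abs_lt.1 (hw i).2
    simp only [Complex.sub_re, Complex.sub_im] at hz1 hz2 hw1 hw2
    simp only [Pi.sub_apply, Complex.sub_re, Complex.sub_im]
    constructor <;> rw [abs_lt] <;> constructor <;> linarith [hz1.1, hz1.2, hz2.1, hz2.2, hw1.1,
      hw1.2, hw2.1, hw2.2]
  exact (sub_eq_zero.1 h1).symm

/-- the charts: local inverses of the projection -/
noncomputable def ch (c : Cn 2) : OpenPartialHomeomorph Tor (Cn 2) :=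
  (OpenPartialHomeomorph.ofContinuousOpen ((injOn_pr c).toPartialEquiv pr (box c (1 / 2)))
    continuous_pr.continuousOn isOpenMap_pr (isOpen_box c (1 / 2))).symm

theorem ch_target (c : Cn 2) : (ch c).target = box c (1 / 2) := rfl

theorem ch_source (c : Cn 2) : (ch c).source = pr '' box c (1 / 2) := rfl

theorem ch_symm (c : Cn 2) (z : Cn 2) : (ch c).symm z = pr z := rfl

theorem pr_ch {c : Cn 2} {x : Tor} (hx : x ∈ (ch c).source) : pr (ch c x) = x :=
  (ch c).left_inv hx

theorem ch_mem {c : Cn 2} {x : Tor} (hx : x ∈ (ch c).source) : ch c x ∈ box c (1 / 2) :=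
  (ch c).map_source hx

theorem ch_pr {c z : Cn 2} (hz : z ∈ box c (1 / 2)) : ch c (pr z) = z := (ch c).right_inv hz

/-- a representative -/
noncomputable def rp (x : Tor) : Cn 2 := Quotient.out x

theorem pr_rp (x : Tor) : pr (rp x) = x := Quotient.out_eq x

noncomputable instance : ChartedSpace (Cn 2) Tor where
  atlas := range ch
  chartAt x := ch (rp x)
  mem_chart_source x := ⟨rp x, mem_box_self _ (by norm_num), pr_rp x⟩
  chart_mem_atlas x := mem_range_self _

theorem mem_atlas {e : OpenPartialHomeomorph Tor (Cn 2)} (he : e ∈ atlas (Cn 2) Tor) :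
    ∃ c, ch c = e := he

/-- transition maps are locally translations -/
theorem trans_eq {c' z : Cn 2} (hz : pr z ∈ (ch c').source) :
    ∀ᶠ y in 𝓝 z, ch c' (pr y) = y + (ch c' (pr z) - z) := by
  have h1 : ch c' (pr z) ∈ box c' (1 / 2) := ch_mem hz
  have h2 : Tendsto (fun y => y + (ch c' (pr z) - z)) (𝓝 z) (𝓝 (ch c' (pr z))) := by
    have : Continuous fun y : Cn 2 => y + (ch c' (pr z) - z) := by fun_prop
    have h3 := this.tendsto z
    simpa using h3
  filter_upwards [h2 ((isOpen_box c' _).mem_nhds h1)] with y hy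
  have h4 : pr y = pr (y + (ch c' (pr z) - z)) := by
    rw [pr_eq, add_sub_cancel_left]
    rw [← pr_eq, pr_ch hz]
  rw [h4, ch_pr hy]

instance : IsManifold 𝓘(ℂ, Cn 2) 1 Tor := by
  refine isManifold_of_contDiffOn _ _ _ ?_
  rintro e e' ⟨c, rfl⟩ ⟨c', rfl⟩
  simp only [modelWithCornersSelf_coe, modelWithCornersSelf_coe_symm, Function.id_comp,
    Function.comp_id, preimage_id_eq, id_eq, range_id, inter_univ]
  intro z hz
  rw [OpenPartialHomeomorph.trans_source] at hz
  have h1 : pr z ∈ (ch c').source := hz.2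
  have h2 : ContDiffAt ℂ 1 (fun y : Cn 2 => y + (ch c' (pr z) - z)) z := by fun_prop
  refine (h2.congr_of_eventuallyEq ?_).contDiffWithinAt
  filter_upwards [trans_eq h1] with y hy
  exact hy

instance : CompactSpace Tor := by
  refine ⟨?_⟩
  have h1 : pr '' (closedBall (0 : Cn 2) 2) = univ := by
    refine eq_univ_of_forall fun x => ?_
    obtain ⟨z, rfl⟩ := surjective_pr x
    refine ⟨fun i => ⟨Int.fract (z i).re, Int.fract (z i).im⟩, ?_, ?_⟩
    · rw [mem_closedBall_zero_iff, pi_norm_le_iff_of_nonneg (by norm_num)]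
      intro i
      refine (Complex.norm_le_abs_re_add_abs_im _).trans ?_
      rw [abs_of_nonneg (Int.fract_nonneg _), abs_of_nonneg (Int.fract_nonneg _)]
      linarith [Int.fract_lt_one (z i).re, Int.fract_lt_one (z i).im]
    · rw [pr_eq]
      intro i
      refine ⟨⟨⌊(z i).re⌋, ?_⟩, ⟨⌊(z i).im⌋, ?_⟩⟩ <;>
      simp only [Pi.sub_apply, Complex.sub_re, Complex.sub_im] <;>
      linarith [Int.floor_add_fract (z i).re, Int.floor_add_fract (z i).im]
  rw [← h1]
  exact (isCompact_closedBall _ _).image continuous_pr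

instance : ConnectedSpace Tor := surjective_pr.connectedSpace continuous_pr

noncomputable def om : VolumeForm 2 Tor where
  f _ _ := 1
  holo _ _ := differentiableOn_const _
  ne_zero _ _ _ _ := one_ne_zero
  trans := by
    rintro e ⟨c, rfl⟩ e' ⟨c', rfl⟩ z hz
    rw [OpenPartialHomeomorph.trans_source] at hz
    have h1 : pr z ∈ (ch c').source := hz.2
    have h2 : (fun y => ch c' ((ch c).symm y)) =ᶠ[𝓝 z] fun y : Cn 2 => y + (ch c' (pr z) - z) := by
      filter_upwards [trans_eq h1] with y hy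
      exact hy
    rw [h2.fderiv_eq, fderiv_add_const, fderiv_fun_id]
    simp [ContinuousLinearMap.det]


theorem ch_atlas (c : Cn 2) : ch c ∈ atlas (Cn 2) Tor := mem_range_self c

theorem md_pr : MDifferentiable 𝓘(ℂ, Cn 2) 𝓘(ℂ, Cn 2) pr := fun w =>
  (mdifferentiableOn_atlas_symm (I := 𝓘(ℂ, Cn 2)) (ch_atlas w)).mdifferentiableAt
    ((ch w).open_target.mem_nhds (mem_box_self w (by norm_num)))

theorem md_ch (c : Cn 2) : MDifferentiableOn 𝓘(ℂ, Cn 2) 𝓘(ℂ, Cn 2) (ch c) (ch c).source :=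
  mdifferentiableOn_atlas (I := 𝓘(ℂ, Cn 2)) (ch_atlas c)

/-- the shear `(x, y) ↦ (x, y + s x)` -/
def S (s : ℤ) : Cn 2 →+ Cn 2 where
  toFun z := ![z 0, z 1 + s * z 0]
  map_zero' := by
    ext i
    fin_cases i <;> simp
  map_add' z w := by
    ext i
    fin_cases i
    · simp
    · simp
      ring

theorem S_zero (s : ℤ) (z : Cn 2) : S s z 0 = z 0 := rfl

theorem S_one (s : ℤ) (z : Cn 2) : S s z 1 = z 1 + s * z 0 := rfl

theorem differentiable_S (s : ℤ) : Differentiable ℂ (S s) := by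
  rw [differentiable_pi]
  intro i
  fin_cases i
  · show Differentiable ℂ fun z : Cn 2 => z 0
    fun_prop
  · show Differentiable ℂ fun z : Cn 2 => z 1 + s * z 0
    fun_prop

theorem S_mem (s : ℤ) : Lam ≤ Lam.comap (S s) := by
  intro v hv i
  obtain ⟨⟨k, hk⟩, l, hl⟩ := hv 0
  obtain ⟨⟨k', hk'⟩, l', hl'⟩ := hv 1
  fin_cases i
  · exact ⟨⟨k, hk⟩, l, hl⟩
  · refine ⟨⟨k' + s * k, ?_⟩, ⟨l' + s * l, ?_⟩⟩
    · show (v 1 + s * v 0).re = _
      simp [hk, hk']
    · show (v 1 + s * v 0).im = _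
      simp [hl, hl']

/-- the shear on the torus -/
def gm (s : ℤ) : Tor → Tor := QuotientAddGroup.map Lam Lam (S s) (S_mem s)

theorem gm_pr (s : ℤ) (z : Cn 2) : gm s (pr z) = pr (S s z) := rfl

theorem continuous_gm (s : ℤ) : Continuous (gm s) :=
  continuous_quot_lift _ (continuous_pr.comp (differentiable_S s).continuous)

theorem gm_gm (s t : ℤ) (h : s + t = 0) (x : Tor) : gm s (gm t x) = x := by
  obtain ⟨z, rfl⟩ := surjective_pr x
  rw [gm_pr, gm_pr]
  congr 1
  ext i
  fin_cases i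
  · rfl
  · show z 1 + t * z 0 + s * z 0 = z 1
    have : (s : ℂ) + t = 0 := by exact_mod_cast h
    linear_combination z 0 * this

def g : Tor ≃ₜ Tor where
  toFun := gm 1
  invFun := gm (-1)
  left_inv := gm_gm (-1) 1 (by norm_num)
  right_inv := gm_gm 1 (-1) (by norm_num)
  continuous_toFun := continuous_gm 1
  continuous_invFun := continuous_gm (-1)

theorem md_gm (s : ℤ) : MDifferentiable 𝓘(ℂ, Cn 2) 𝓘(ℂ, Cn 2) (gm s) := by
  intro x
  have hx : x ∈ (ch (rp x)).source := mem_chart_source (Cn 2) x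
  have h1 : MDifferentiableAt 𝓘(ℂ, Cn 2) 𝓘(ℂ, Cn 2) (fun y => pr (S s (ch (rp x) y))) x := by
    have h2 := (md_ch (rp x)).mdifferentiableAt ((ch (rp x)).open_source.mem_nhds hx)
    have h3 : MDifferentiableAt 𝓘(ℂ, Cn 2) 𝓘(ℂ, Cn 2) (S s) (ch (rp x) x) :=
      (differentiable_S s _).mdifferentiableAt
    exact (md_pr _).comp x (h3.comp x h2)
  refine h1.congr_of_eventuallyEq ?_
  filter_upwards [(ch (rp x)).open_source.mem_nhds hx] with y hy
  rw [← gm_pr, pr_ch hy]

theorem hg : MDifferentiable 𝓘(ℂ, Cn 2) 𝓘(ℂ, Cn 2) g := md_gm 1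

theorem hg' : MDifferentiable 𝓘(ℂ, Cn 2) 𝓘(ℂ, Cn 2) g.symm := md_gm (-1)

/-- the potentials -/
noncomputable def Q : ℕ → Cn 2 → ℝ
  | 0 => fun z => Complex.normSq (z 0) + Complex.normSq (z 1)
  | 1 => fun z => Complex.normSq (z 0) + 2 * (z 1 * (starRingEnd ℂ) (z 0)).re
  | 2 => fun z => 2 * Complex.normSq (z 0)
  | _ + 3 => fun _ => 0

/-- the polarised forms -/
noncomputable def L : ℕ → Cn 2 → Cn 2 → ℂ
  | 0 => fun v z => z 0 * (starRingEnd ℂ) (v 0) + z 1 * (starRingEnd ℂ) (v 1)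
  | 1 => fun v z => z 0 * (starRingEnd ℂ) (v 0) + z 1 * (starRingEnd ℂ) (v 0) +
      z 0 * (starRingEnd ℂ) (v 1)
  | 2 => fun v z => 2 * (z 0 * (starRingEnd ℂ) (v 0))
  | _ + 3 => fun _ _ => 0

theorem Q_cont (j : ℕ) : Continuous (Q j) := by
  match j with
  | 0 =>
    have h0 : Continuous fun z : Cn 2 => Complex.normSq (z 0) :=
      Complex.continuous_normSq.comp (continuous_apply 0)
    have h1 : Continuous fun z : Cn 2 => Complex.normSq (z 1) :=
      Complex.continuous_normSq.comp (continuous_apply 1)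
    exact h0.add h1
  | 1 =>
    have h0 : Continuous fun z : Cn 2 => Complex.normSq (z 0) :=
      Complex.continuous_normSq.comp (continuous_apply 0)
    have h1 : Continuous fun z : Cn 2 => (starRingEnd ℂ) (z 0) :=
      Complex.continuous_conj.comp (continuous_apply 0)
    have h2 : Continuous fun z : Cn 2 => (z 1 * (starRingEnd ℂ) (z 0)).re :=
      Complex.continuous_re.comp ((continuous_apply 1).mul h1)
    exact h0.add (continuous_const.mul h2)
  | 2 =>
    have h0 : Continuous fun z : Cn 2 => Complex.normSq (z 0) :=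
      Complex.continuous_normSq.comp (continuous_apply 0)
    exact continuous_const.mul h0
  | _ + 3 => exact continuous_const

theorem L_diff (j : ℕ) (v : Cn 2) : Differentiable ℂ (L j v) := by
  match j with
  | 0 =>
    show Differentiable ℂ fun z : Cn 2 => z 0 * (starRingEnd ℂ) (v 0) + z 1 * (starRingEnd ℂ) (v 1)
    fun_prop
  | 1 =>
    show Differentiable ℂ fun z : Cn 2 => z 0 * (starRingEnd ℂ) (v 0) +
      z 1 * (starRingEnd ℂ) (v 0) + z 0 * (starRingEnd ℂ) (v 1)
    fun_prop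
  | 2 =>
    show Differentiable ℂ fun z : Cn 2 => 2 * (z 0 * (starRingEnd ℂ) (v 0))
    fun_prop
  | _ + 3 => exact differentiable_const _

theorem Q_add (j : ℕ) (z v : Cn 2) : Q j (z + v) = Q j z + 2 * (L j v z).re + Q j v := by
  match j with
  | 0 =>
    simp [Q, L, Complex.normSq_apply]
    ring
  | 1 =>
    simp [Q, L, Complex.normSq_apply]
    ring
  | 2 =>
    simp [Q, L, Complex.normSq_apply]
    ring
  | _ + 3 => simp [Q, L]

theorem Q_S {j : ℕ} (z : Cn 2) : Q j (S 1 z) = Q j z + Q (j + 1) z := by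
  match j with
  | 0 =>
    simp [Q, S_zero, S_one, Complex.normSq_apply]
    ring
  | 1 =>
    simp [Q, S_zero, S_one, Complex.normSq_apply]
    ring
  | 2 => simp [Q, S_zero, Complex.normSq_apply]
  | _ + 3 => simp [Q]

theorem pluriharmonic {c : Cn 2} {U : Set Tor} (hU : U ⊆ (ch c).source) {f : Cn 2 → ℂ}
    (hf : Differentiable ℂ f) (K : ℝ) : Pluriharmonic 2 U (fun x => 2 * (f (ch c x)).re + K) := by
  refine Pluriharmonic.mono (U := (ch c).source) ?_ hU
  refine ⟨?_, fun h hd => ?_⟩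
  · exact (continuousOn_const.mul (Complex.continuous_re.comp_continuousOn
      (hf.continuous.comp_continuousOn (ch c).continuousOn))).add continuousOn_const
  obtain ⟨R, hR, hm, hmem⟩ := hd.exists_larger (ch c).open_source
  have h1 : DifferentiableOn ℂ (fun z => f (ch c (h z))) (ball 0 R) := by
    have h2 : MDifferentiableOn 𝓘(ℂ, ℂ) 𝓘(ℂ, Cn 2) (fun z => ch c (h z)) (ball 0 R) :=
      (md_ch c).comp hm fun z hz => (hmem z (mem_ball_zero_iff.1 hz).le).1
    rw [mdifferentiableOn_iff_differentiableOn] at h2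
    exact hf.comp_differentiableOn h2
  have h3 : DiffContOnCl ℂ (fun z => f (ch c (h z))) (ball 0 |1|) := by
    refine (h1.mono ?_).diffContOnCl
    rw [abs_one, closure_ball _ one_ne_zero]
    exact closedBall_subset_ball hR
  have h4 : CircleIntegrable (fun z => f (ch c (h z))) 0 1 := by
    refine ContinuousOn.circleIntegrable' ?_
    exact (h1.continuousOn).mono (fun z hz => by
      rw [abs_one, mem_sphere_zero_iff_norm] at hz
      rw [mem_ball_zero_iff, hz]
      exact hR)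
  have h5 : Real.circleAverage (fun z => (f (ch c (h z))).re) 0 1 = (f (ch c (h 0))).re := by
    have h6 := Complex.reCLM.circleAverage_comp_comm h4
    rw [h3.circleAverage] at h6
    exact h6
  have h7 : CircleIntegrable (fun z => (f (ch c (h z))).re) 0 1 := by
    refine ContinuousOn.circleIntegrable' ?_
    exact (Complex.continuous_re.comp_continuousOn h1.continuousOn).mono (fun z hz => by
      rw [abs_one, mem_sphere_zero_iff_norm] at hz
      rw [mem_ball_zero_iff, hz]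
      exact hR)
  have h8 := Real.circleAverage_fun_smul (a := (2 : ℝ)) (f := fun z => (f (ch c (h z))).re)
    (c := 0) (R := 1)
  simp only [smul_eq_mul] at h8
  have h9 : CircleIntegrable (fun z => 2 * (f (ch c (h z))).re) 0 1 := by
    refine ContinuousOn.circleIntegrable' ?_
    exact (continuousOn_const.mul (Complex.continuous_re.comp_continuousOn h1.continuousOn)).mono
      (fun z hz => by
        rw [abs_one, mem_sphere_zero_iff_norm] at hz
        rw [mem_ball_zero_iff, hz]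
        exact hR)
  rw [Real.circleAverage_fun_add h9 continuousOn_const.circleIntegrable', h8, h5,
    Real.circleAverage_const]

/-- the neighbourhoods -/
def Vn (p : Tor) : Set Tor := pr '' box (rp p) (1 / 8)

theorem Vn_sub (p : Tor) : Vn p ⊆ (ch (rp p)).source :=
  image_mono (box_mono _ (by norm_num))

theorem ch_Vn {p x : Tor} (hx : x ∈ Vn p) : ch (rp p) x ∈ box (rp p) (1 / 8) := by
  obtain ⟨z, hz, rfl⟩ := hx
  rwa [ch_pr (box_mono _ (by norm_num) hz)]

/-- the two charts differ by a constant vector (`s = 0`: chart change, `s = 1`: the map `g`) -/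
theorem shift (s : ℤ) (hs : s = 0 ∨ s = 1) (p q : Tor) :
    ∃ v : Cn 2, ∀ x ∈ Vn p ∩ gm s ⁻¹' Vn q,
      ch (rp q) (gm s x) = S s (ch (rp p) x) + v := by
  by_cases hne : (Vn p ∩ gm s ⁻¹' Vn q).Nonempty
  swap
  · exact ⟨0, fun x hx => (hne ⟨x, hx⟩).elim⟩
  obtain ⟨y, hy⟩ := hne
  refine ⟨ch (rp q) (gm s y) - S s (ch (rp p) y), fun x hx => ?_⟩
  have key : ∀ y ∈ Vn p ∩ gm s ⁻¹' Vn q, ch (rp q) (gm s y) - S s (ch (rp p) y) ∈ Lam := by
    intro y hy
    rw [← pr_eq, ← gm_pr, pr_ch (Vn_sub _ hy.1), pr_ch (Vn_sub _ hy.2)]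
  have h1 := Lam.sub_mem (key x hx) (key y hy)
  have h2 := Lam.eq_zero h1 (fun i => by
    have a0 := ch_Vn hx.1 0
    have a1 := ch_Vn hx.1 1
    have b0 := ch_Vn hy.1 0
    have b1 := ch_Vn hy.1 1
    have a2 := ch_Vn hx.2 0
    have a3 := ch_Vn hx.2 1
    have b2 := ch_Vn hy.2 0
    have b3 := ch_Vn hy.2 1
    simp only [abs_lt, Complex.sub_re, Complex.sub_im] at a0 a1 b0 b1 a2 a3 b2 b3
    simp only [Pi.sub_apply, Complex.sub_re, Complex.sub_im]
    fin_cases i
    · simp only [Fin.zero_eta, S_zero]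
      constructor <;> rw [abs_lt] <;> constructor <;> linarith [a0.1.1, a0.1.2, a0.2.1, a0.2.2,
        b0.1.1, b0.1.2, b0.2.1, b0.2.2, a2.1.1, a2.1.2, a2.2.1, a2.2.2, b2.1.1, b2.1.2, b2.2.1,
        b2.2.2]
    · simp only [Fin.mk_one, S_one, Complex.add_re, Complex.add_im]
      rcases hs with rfl | rfl
      · simp only [Int.cast_zero, zero_mul, Complex.zero_re, Complex.zero_im, add_zero]
        constructor <;> rw [abs_lt] <;> constructor <;> linarith [a1.1.1, a1.1.2, a1.2.1, a1.2.2,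
          b1.1.1, b1.1.2, b1.2.1, b1.2.2, a3.1.1, a3.1.2, a3.2.1, a3.2.2, b3.1.1, b3.1.2, b3.2.1,
          b3.2.2]
      · simp only [Int.cast_one, one_mul]
        constructor <;> rw [abs_lt] <;> constructor <;> linarith [a1.1.1, a1.1.2, a1.2.1, a1.2.2,
          b1.1.1, b1.1.2, b1.2.1, b1.2.2, a3.1.1, a3.1.2, a3.2.1, a3.2.2, b3.1.1, b3.1.2, b3.2.1,
          b3.2.2, a0.1.1, a0.1.2, a0.2.1, a0.2.2, b0.1.1, b0.1.2, b0.2.1, b0.2.2])
  have h3 : ch (rp q) (gm s x) - S s (ch (rp p) x) = ch (rp q) (gm s y) - S s (ch (rp p) y) :=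
    sub_eq_zero.1 h2
  rw [← h3]
  abel

theorem gm_zero (x : Tor) : gm 0 x = x := by
  obtain ⟨z, rfl⟩ := surjective_pr x
  rw [gm_pr]
  congr 1
  ext i
  fin_cases i
  · rfl
  · show z 1 + ((0 : ℤ) : ℂ) * z 0 = z 1
    simp

theorem S_zero_apply (z : Cn 2) : S 0 z = z := by
  ext i
  fin_cases i
  · rfl
  · show z 1 + ((0 : ℤ) : ℂ) * z 0 = z 1
    simp

/-- the flat currents `T_0, T_1, T_2` on the torus -/
noncomputable def T : Currents 2 Tor where
  V := Vn
  u j p x := Q j (ch (rp p) x)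
  isOpen_V p := isOpenMap_pr _ (isOpen_box _ _)
  mem_V p := ⟨rp p, mem_box_self _ (by norm_num), pr_rp p⟩
  cont j p := (Q_cont j).comp_continuousOn ((ch (rp p)).continuousOn.mono (Vn_sub p))
  pluri j p q := by
    obtain ⟨v, hv⟩ := shift 0 (Or.inl rfl) p q
    refine (pluriharmonic (c := rp p) (U := Vn p ∩ Vn q) (fun x hx => Vn_sub p hx.1)
      (f := fun z => -L j v z) (L_diff j v).neg (-Q j v)).congr fun x hx => ?_
    have h1 := hv x ⟨hx.1, by
      rw [mem_preimage, gm_zero]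
      exact hx.2⟩
    rw [gm_zero, S_zero_apply] at h1
    rw [h1, Q_add]
    simp
    ring

theorem hpos (p : Tor) : Psh 2 (T.V p) (fun x => (T.u 0 p x : EReal)) := by
  refine psh_of_le_average (T.cont 0 p) fun h hd => ?_
  set w : Cn 2 := ch (rp p) (h 0) with hw
  have hP : Pluriharmonic 2 (Vn p) (fun x => 2 * (-L 0 (-w) (ch (rp p) x)).re + -Q 0 (-w)) :=
    pluriharmonic (Vn_sub p) (f := fun z => -L 0 (-w) z) (L_diff 0 (-w)).neg _
  have h1 : ∀ z : Cn 2, 0 ≤ Q 0 z := fun z => add_nonneg (Complex.normSq_nonneg _)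
    (Complex.normSq_nonneg _)
  have h2 : ∀ z : Cn 2, 2 * (-L 0 (-w) z).re + -Q 0 (-w) ≤ Q 0 z := by
    intro z
    have h3 := Q_add 0 z (-w)
    have h4 := h1 (z + -w)
    rw [Complex.neg_re]
    linarith
  have h5 : T.u 0 p (h 0) = 2 * (-L 0 (-w) (ch (rp p) (h 0))).re + -Q 0 (-w) := by
    have h3 := Q_add 0 w (-w)
    have h4 : Q 0 (w + -w) = 0 := by simp [Q]
    rw [Complex.neg_re, ← hw]
    show Q 0 w = _
    linarith
  have h6 := hP.2 h hd
  simp only at h6
  rw [h5, h6]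
  refine Real.circleAverage_mono (Pluriharmonic.integrable hP.1 hd)
    (Pluriharmonic.integrable (T.cont 0 p) hd) fun z _ => h2 _

theorem hrel (j : ℕ) (p q : Tor) : Pluriharmonic 2 (T.V p ∩ g ⁻¹' T.V q)
    (fun x => T.u j q (g x) - T.u j p x - T.u (j + 1) p x - 0) := by
  obtain ⟨v, hv⟩ := shift 1 (Or.inr rfl) p q
  refine (pluriharmonic (c := rp p) (U := Vn p ∩ gm 1 ⁻¹' Vn q) (fun x hx => Vn_sub p hx.1)
      (f := fun z => L j v (S 1 z)) ((L_diff j v).comp (differentiable_S 1)) (Q j v)).congr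
      fun x hx => ?_
  have h1 := hv x hx
  show Q j (ch (rp q) (gm 1 x)) - Q j (ch (rp p) x) - Q (j + 1) (ch (rp p) x) - 0 = _
  rw [h1, Q_add, Q_S]
  ring

end Pool.Agent.H84.LZ
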