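import Pool.Agent.H84.LZ.Torus
import Pool.Agent.H51.LZ.Main
import Pool.Agent.H9.LZ.Lel

/-!
# The theorem on unipotent automorphisms for a torus: all hypotheses are satisfied by
`(ℂ / ℤ[i])^2`, the shear `(x, y) ↦ (x, y + x)`, `d = 2` and flat currents
-/

set_option autoImplicit false

open Set Filter Topology Metric MeasureTheory
open scoped Manifold ENNReal

namespace Pool.Agent.H84.LZ

open Pool.Agent.H51.LZ

noncomputable instance : MeasurableSpace Tor := borel Tor

instance : BorelSpace Tor := ⟨rfl⟩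

theorem torus_example : ∃ (φ : Tor → EReal) (c C : ℝ),
      (∀ p, Psh 2 (T.V p) (fun x => (T.u 2 p x : EReal) + φ x)) ∧
      (∀ x, φ x = ((0 - c : ℝ) : EReal) + φ (g x)) ∧
      (∀ x, ZeroLelongAt 2 φ x) ∧
      (∀ K : Set Tor, IsClosed K → K.Nonempty → MapsTo g K K →
        ∃ x ∈ K, ((-C : ℝ) : EReal) ≤ φ x) ∧
      ∀ ν : Measure Tor, IsProbabilityMeasure ν → MeasurePreserving g ν ν →
        ∫⁻ x, (-(φ x)).toENNReal ∂ν ≤ ENNReal.ofReal C := by
  have hLEL : OrbitClosure 2 Tor := fun φ V u hV hp hu hpsh g hg hg' A hA x hx =>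
    Pool.Agent.H9.LZ.bot_on_closure hV hp hu hpsh g hg hg' hA hx
  refine main_of hLEL om 2 even_two g hg hg' T hpos (fun _ _ => 0) (fun _ => continuous_const)
    (fun j _ p q => hrel j p q) fun p q => (hrel 2 p q).congr fun x _ => ?_
  show _ = T.u 2 q (g x) - T.u 2 p x - T.u (2 + 1) p x - 0
  have : T.u (2 + 1) p x = 0 := rfl
  rw [this]
  ring

end Pool.Agent.H84.LZ
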